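import Pool.Agent.Helper51.CW.Flip

/-!
# The correlation sums of a random sign vector are small with large probability
-/

set_option autoImplicit false

namespace Pool.Agent.Helper51.CW

open Finset Filter Pool.Agent.Helper66.MB Pool.Agent.Helper66.CW Pool.Agent.Helper66

open Classical in
/-- block B1 -/
def ZSet : Prop := ∀ (k : ℕ), 1 ≤ k → ∀ (h : Fin k → ℕ), Function.Injective h → ∀ (ε : ℝ), 0 < ε →
    ∃ N₀ : ℕ, ∀ N I : ℕ, N₀ ≤ N → Real.log N ^ 2 ≤ I → (I : ℝ) ≤ Real.log N ^ 2 + 1 →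
      (((Icc 1 N).filter (fun n => ∀ i, I ≤ i → ¬ odd2 i (Q h n))).card : ℝ) ≤ ε * N

/-- block B2 -/
def Poinc : Prop := ∀ (J I : ℕ) (F : (ℕ → ℤˣ) → ℝ),
    (∀ ω ω' : ℕ → ℤˣ, (∀ i, i < J → ω i = ω' i) → F ω = F ω') →
    ∀ (c : ℕ → ℝ), (∀ i, 0 ≤ c i) →
    (∀ i, I ≤ i → i < J → ∀ ω : ℕ → ℤˣ, |F (Function.update ω i (-ω i)) - F ω| ≤ c i) →
    ∀ (m : ℝ), (∀ ω : ℕ → ℤˣ,
      |(∑ η : Fin J → ℤˣ, F (fun i => if i < I then ω i else exd η i)) / 2 ^ J| ≤ m) →
    ∀ (t : ℝ), 0 < t → fr J (fun ω => ¬ |F ω| ≤ m + t) ≤ (∑ i ∈ Ico I J, c i ^ 2) / (4 * t ^ 2)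

theorem fr_le_one (J : ℕ) (P : (ℕ → ℤˣ) → Prop) : fr J P ≤ 1 := by
  classical
  unfold fr
  rw [div_le_one (by positivity)]
  have hc : (Fintype.card (Fin J → ℤˣ) : ℝ) = 2 ^ J := by
    rw [Fintype.card_fun, Fintype.card_fin]
    norm_num [Fintype.card_units_int]
  rw [← hc]
  exact_mod_cast card_le_univ _

theorem sum_sq_le {I : ℕ} (hI : 1 ≤ I) (J : ℕ) :
    ∑ i ∈ Ico I J, ((1 : ℝ) / ((i : ℝ) + 1)) ^ 2 ≤ (1 : ℝ) / (I : ℝ) := by
  have hI' : (0 : ℝ) < I := by exact_mod_cast hI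
  have key : ∀ J : ℕ, I ≤ J → ∑ i ∈ Ico I J, ((1 : ℝ) / ((i : ℝ) + 1)) ^ 2 ≤
      (1 : ℝ) / (I : ℝ) - (1 : ℝ) / (J : ℝ) := by
    intro J hJ
    induction J, hJ using Nat.le_induction with
    | base => simp
    | succ J hJ ih =>
      rw [sum_Ico_succ_top hJ]
      have hJ' : (0 : ℝ) < J := by
        have : 0 < J := by omega
        exact_mod_cast this
      have e : (1 / ((J : ℝ) + 1)) ^ 2 ≤ 1 / J - 1 / ((J : ℝ) + 1) := by
        rw [div_sub_div _ _ hJ'.ne' (by positivity), div_pow, one_pow, one_mul, mul_one]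
        rw [div_le_div_iff₀ (by positivity) (by positivity)]
        nlinarith
      push_cast
      linarith
  rcases le_total I J with h | h
  · have h1 := key J h
    have : (0 : ℝ) ≤ 1 / J := by positivity
    linarith
  · rw [Ico_eq_empty_of_le h, sum_empty]
    positivity

/-- **block B3 from B1 and B2** -/
theorem chebyshev_of (hz : ZSet) (hP : Poinc) {k : ℕ} (hk : 2 ≤ k) (h : Fin k → ℕ)
    (hinj : Function.Injective h) (ε : ℝ) (hε : 0 < ε) :
    ∃ C : ℝ, 0 ≤ C ∧ ∀ N J : ℕ, 2 ≤ N → (∀ i, N + h i < J) →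
      fr J (fun ω => ¬ |cor (GL.cm (sgn ω)) h N| ≤ ε * N) ≤ C / Real.log N ^ 2 := by
  classical
  obtain ⟨N₀, hN₀⟩ := hz k (by omega) h hinj (ε / 2) (by positivity)
  obtain ⟨H, hH⟩ : ∃ H : ℕ, ∀ j, h j ≤ H := ⟨∑ j, h j, fun j =>
    single_le_sum (f := h) (fun _ _ => Nat.zero_le _) (mem_univ j)⟩
  refine ⟨16 * (k : ℝ) ^ 2 * (1 + H) ^ 2 / ε ^ 2 + Real.log (N₀ + 1) ^ 2, by positivity,
    fun N J hN hJ => ?_⟩
  have hN' : (2 : ℝ) ≤ N := by exact_mod_cast hN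
  have hlog : 0 < Real.log N := Real.log_pos (by linarith)
  have hl2 : 0 < Real.log N ^ 2 := by positivity
  rcases le_or_gt N₀ N with hNN | hNN
  · -- large `N`
    obtain ⟨I, hI⟩ : ∃ I : ℕ, I = ⌈Real.log N ^ 2⌉₊ := ⟨_, rfl⟩
    have hI1 : Real.log N ^ 2 ≤ I := by
      rw [hI]
      exact Nat.le_ceil _
    have hI2 : (I : ℝ) ≤ Real.log N ^ 2 + 1 := by
      rw [hI]
      exact (Nat.ceil_lt_add_one hl2.le).le
    have hI0 : (0 : ℝ) < I := lt_of_lt_of_le hl2 hI1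
    have hI3 : 1 ≤ I := by exact_mod_cast (Nat.one_le_cast.2 (Nat.pos_of_ne_zero fun e => by
      rw [e] at hI0
      simp at hI0))
    have hmean := hN₀ N I hNN hI1 hI2
    have key := hP J I (fun ω => cor (GL.cm (sgn ω)) h N) (fun ω ω' e => cor_local h hJ ω ω' e)
      (fun i => 4 * k * ((N : ℝ) + H) / pa i) (fun i => by positivity)
      (fun i _ _ ω => by
        refine (cor_diff i ω h N).trans ?_
        have := card_odd2 i h hH N
        calc _ ≤ 2 * (2 * k * ((N : ℝ) + H) / pa i) := by linarith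
          _ = 4 * k * ((N : ℝ) + H) / pa i := by ring)
      (ε / 2 * N) (fun ω => (mean_le h hJ ω).trans hmean) (ε / 2 * N) (by positivity)
    have e1 : ε / 2 * (N : ℝ) + ε / 2 * N = ε * N := by ring
    rw [e1] at key
    refine key.trans ?_
    have e2 : ∑ i ∈ Ico I J, (4 * k * ((N : ℝ) + H) / pa i) ^ 2 ≤
        (4 * k * ((N : ℝ) + H)) ^ 2 * (1 / I) := by
      calc ∑ i ∈ Ico I J, (4 * k * ((N : ℝ) + H) / pa i) ^ 2
          ≤ ∑ i ∈ Ico I J, (4 * k * ((N : ℝ) + H)) ^ 2 * (1 / ((i : ℝ) + 1)) ^ 2 := by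
            refine sum_le_sum fun i _ => ?_
            rw [← mul_pow]
            have hp : (i : ℝ) + 1 ≤ pa i := by
              have := lt_pa i
              exact_mod_cast (by omega : i + 1 ≤ pa i)
            have h0 : (0 : ℝ) < (i : ℝ) + 1 := by positivity
            have h1 : 4 * k * ((N : ℝ) + H) / pa i ≤ 4 * k * ((N : ℝ) + H) * (1 / ((i : ℝ) + 1)) := by
              rw [div_eq_mul_one_div]
              exact mul_le_mul_of_nonneg_left (one_div_le_one_div_of_le h0 hp) (by positivity)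
            exact pow_le_pow_left₀ (by positivity) h1 2
        _ = (4 * k * ((N : ℝ) + H)) ^ 2 * ∑ i ∈ Ico I J, (1 / ((i : ℝ) + 1)) ^ 2 := by
            rw [mul_sum]
        _ ≤ _ := mul_le_mul_of_nonneg_left (sum_sq_le hI3 J) (by positivity)
    have e3 : ((N : ℝ) + H) ≤ (1 + H) * N := by
      have : (0 : ℝ) ≤ H := by positivity
      nlinarith
    have e4 : (4 * k * ((N : ℝ) + H)) ^ 2 ≤ (4 * k * ((1 + H) * (N : ℝ))) ^ 2 :=
      pow_le_pow_left₀ (by positivity) (mul_le_mul_of_nonneg_left e3 (by positivity)) 2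
    calc (∑ i ∈ Ico I J, (4 * k * ((N : ℝ) + H) / pa i) ^ 2) / (4 * (ε / 2 * N) ^ 2)
        ≤ ((4 * k * ((1 + H) * (N : ℝ))) ^ 2 * (1 / I)) / (4 * (ε / 2 * N) ^ 2) := by
          refine div_le_div_of_nonneg_right (e2.trans ?_) (by positivity)
          exact mul_le_mul_of_nonneg_right e4 (by positivity)
      _ = 16 * (k : ℝ) ^ 2 * (1 + H) ^ 2 / ε ^ 2 * (1 / I) := by
          have hN0 : (N : ℝ) ≠ 0 := by positivity
          field_simp
          ring
      _ ≤ 16 * (k : ℝ) ^ 2 * (1 + H) ^ 2 / ε ^ 2 * (1 / Real.log N ^ 2) :=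
          mul_le_mul_of_nonneg_left (one_div_le_one_div_of_le hl2 hI1) (by positivity)
      _ ≤ (16 * (k : ℝ) ^ 2 * (1 + H) ^ 2 / ε ^ 2 + Real.log (N₀ + 1) ^ 2) *
          (1 / Real.log N ^ 2) := by
          refine mul_le_mul_of_nonneg_right ?_ (by positivity)
          have : 0 ≤ Real.log (N₀ + 1) ^ 2 := sq_nonneg _
          linarith
      _ = _ := by ring
  · -- small `N`
    refine (fr_le_one _ _).trans ?_
    rw [le_div_iff₀ hl2, one_mul]
    have h1 : Real.log N ≤ Real.log (N₀ + 1) := by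
      refine Real.log_le_log (by linarith) ?_
      have : (N : ℝ) < N₀ := by exact_mod_cast hNN
      linarith
    have h2 := pow_le_pow_left₀ hlog.le h1 2
    have h3 : 0 ≤ 16 * (k : ℝ) ^ 2 * (1 + H) ^ 2 / ε ^ 2 := by positivity
    linarith

end Pool.Agent.Helper51.CW
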