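import Pool.Agent.Helper66.CW.Defs

/-!
# Flipping one sign pair in the correlation sums
-/

set_option autoImplicit false

namespace Pool.Agent.Helper51.CW

open Finset Filter Pool.Agent.Helper66.MB Pool.Agent.Helper66.CW Pool.Agent.Helper66

/-- the sign vector with the coordinate `i` flipped -/
def fl (i : ℕ) (ω : ℕ → ℤˣ) : ℕ → ℤˣ := Function.update ω i (-ω i)

theorem sgn_fl (i : ℕ) (ω : ℕ → ℤˣ) {p : ℕ} (hp : p.Prime) :
    sgn (fl i ω) p = (if p = pa i ∨ p = pb i then -1 else 1) * sgn ω p := by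
  obtain ⟨j, rfl | rfl⟩ := prime_cases hp
  · rw [sgn_pa, sgn_pa]
    by_cases h : j = i
    · subst h
      simp [fl]
    · have h1 : ¬ (pa j = pa i ∨ pa j = pb i) := by
        rintro (h2 | h2)
        · exact h (pa_strictMono.injective h2)
        · exact pa_ne_pb j i h2
      rw [if_neg h1, one_mul]
      simp [fl, h]
  · rw [sgn_pb, sgn_pb]
    by_cases h : j = i
    · subst h
      simp [fl]
    · have h1 : ¬ (pb j = pa i ∨ pb j = pb i) := by
        rintro (h2 | h2)
        · exact pa_ne_pb i j h2.symm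
        · exact h (pb_strictMono.injective h2)
      rw [if_neg h1, one_mul]
      simp [fl, h]

/-- the effect of a flip on the completely multiplicative function -/
theorem cm_fl (i : ℕ) (ω : ℕ → ℤˣ) (m : ℕ) :
    GL.cm (sgn (fl i ω)) m = (-1) ^ (m.factorization (pa i) + m.factorization (pb i)) *
      GL.cm (sgn ω) m := by
  unfold GL.cm Finsupp.prod
  have h1 : ∏ p ∈ m.factorization.support, sgn (fl i ω) p ^ m.factorization p =
      (∏ p ∈ m.factorization.support,
        ((if p = pa i then (-1 : ℤ) ^ m.factorization p else 1) *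
          (if p = pb i then (-1 : ℤ) ^ m.factorization p else 1))) *
      ∏ p ∈ m.factorization.support, sgn ω p ^ m.factorization p := by
    rw [← prod_mul_distrib]
    refine prod_congr rfl fun p hp => ?_
    have hpp : p.Prime := by
      rw [Nat.support_factorization] at hp
      exact Nat.prime_of_mem_primeFactors hp
    rw [sgn_fl i ω hpp, mul_pow]
    congr 1
    by_cases ha : p = pa i
    · have hb : p ≠ pb i := by
        rw [ha]
        exact pa_ne_pb i i
      simp [ha, pa_ne_pb i i]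
    · by_cases hb : p = pb i
      · have : pb i ≠ pa i := (pa_ne_pb i i).symm
        simp [hb, this]
      · simp [ha, hb]
  rw [h1]
  congr 1
  rw [prod_mul_distrib, prod_ite_eq', prod_ite_eq', pow_add]
  congr 1
  · split_ifs with h
    · rfl
    · rw [Finsupp.notMem_support_iff.1 h, pow_zero]
  · split_ifs with h
    · rfl
    · rw [Finsupp.notMem_support_iff.1 h, pow_zero]

theorem cm_prod (f : ℕ → ℤ) {k : ℕ} (a : Fin k → ℕ) (ha : ∀ i, a i ≠ 0) :
    GL.cm f (∏ i, a i) = ∏ i, GL.cm f (a i) := by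
  have : ∀ s : Finset (Fin k), GL.cm f (∏ i ∈ s, a i) = ∏ i ∈ s, GL.cm f (a i) := by
    intro s
    induction s using Finset.induction_on with
    | empty => simp [GL.cm_one]
    | insert i s hi ih =>
      rw [prod_insert hi, prod_insert hi, GL.cm_mul f (ha i) (prod_ne_zero_iff.2 fun j _ => ha j),
        ih]
  exact this univ

/-- the correlation sum as a sum over the products -/
theorem cor_eq (f : ℕ → ℤ) {k : ℕ} (h : Fin k → ℕ) (N : ℕ) :
    cor (GL.cm f) h N = ∑ n ∈ Icc 1 N, (GL.cm f (Q h n) : ℝ) := by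
  unfold cor
  refine sum_congr rfl fun n hn => ?_
  rw [mem_Icc] at hn
  unfold Q
  rw [cm_prod f (fun i => n + h i) (fun i => by omega)]
  push_cast
  rfl

theorem cm_abs (ω : ℕ → ℤˣ) (m : ℕ) : |((GL.cm (sgn ω) m : ℤ) : ℝ)| = 1 := by
  rcases GL.cm_sign (sgn ω) (sgn_mem ω) m with h | h <;> rw [h] <;> norm_num

theorem cm_fl_odd {i m : ℕ} (ω : ℕ → ℤˣ) (h : odd2 i m) :
    GL.cm (sgn (fl i ω)) m = -GL.cm (sgn ω) m := by
  rw [cm_fl, h.neg_one_pow]
  ring

theorem cm_fl_even {i m : ℕ} (ω : ℕ → ℤˣ) (h : ¬ odd2 i m) :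
    GL.cm (sgn (fl i ω)) m = GL.cm (sgn ω) m := by
  rw [cm_fl, (Nat.not_odd_iff_even.1 h).neg_one_pow, one_mul]

open Classical in
/-- the discrete derivative -/
theorem cor_diff (i : ℕ) (ω : ℕ → ℤˣ) {k : ℕ} (h : Fin k → ℕ) (N : ℕ) :
    |cor (GL.cm (sgn (fl i ω))) h N - cor (GL.cm (sgn ω)) h N| ≤
      2 * (((Icc 1 N).filter (fun n => odd2 i (Q h n))).card : ℝ) := by
  rw [cor_eq, cor_eq, ← sum_sub_distrib]
  refine (abs_sum_le_sum_abs _ _).trans ?_
  rw [card_filter]
  push_cast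
  rw [mul_sum]
  refine sum_le_sum fun n _ => ?_
  split_ifs with hn
  · rw [cm_fl_odd ω hn]
    push_cast
    have := cm_abs ω (Q h n)
    calc |-(GL.cm (sgn ω) (Q h n) : ℝ) - GL.cm (sgn ω) (Q h n)|
        = 2 * |(GL.cm (sgn ω) (Q h n) : ℝ)| := by
          rw [show -(GL.cm (sgn ω) (Q h n) : ℝ) - GL.cm (sgn ω) (Q h n) =
            -(2 * (GL.cm (sgn ω) (Q h n) : ℝ)) by ring, abs_neg, abs_mul, abs_two]
      _ ≤ 2 * 1 := by rw [this]
  · rw [cm_fl_even ω hn]
    simp

/-- the multiples of `p` in a shifted interval -/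
theorem card_mult (p a N : ℕ) : ((Icc 1 N).filter (fun n => p ∣ n + a)).card ≤ (N + a) / p := by
  rw [← Nat.Ioc_filter_dvd_card_eq_div (N + a) p]
  refine card_le_card_of_injOn (fun n => n + a) (fun n hn => ?_) (fun x _ y _ e => by
    simpa using e)
  simp only [coe_filter, mem_Icc, Set.mem_ofPred_eq] at hn
  simp only [coe_filter, mem_Ioc, Set.mem_ofPred_eq]
  exact ⟨⟨by omega, by omega⟩, hn.2⟩

theorem odd2_dvd {i m : ℕ} (h : odd2 i m) : pa i ∣ m ∨ pb i ∣ m := by
  by_contra hcon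
  push Not at hcon
  have h1 : m.factorization (pa i) = 0 := Nat.factorization_eq_zero_of_not_dvd hcon.1
  have h2 : m.factorization (pb i) = 0 := Nat.factorization_eq_zero_of_not_dvd hcon.2
  unfold odd2 at h
  rw [h1, h2] at h
  exact absurd h (by decide)

theorem odd2_shift {i : ℕ} {k : ℕ} {h : Fin k → ℕ} {n : ℕ} (hq : odd2 i (Q h n)) :
    ∃ j, pa i ∣ n + h j ∨ pb i ∣ n + h j := by
  rcases odd2_dvd hq with hd | hd
  · obtain ⟨j, -, hj⟩ := (Prime.dvd_finsetProd_iff (pa_prime i).prime _).1 hd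
    exact ⟨j, Or.inl hj⟩
  · obtain ⟨j, -, hj⟩ := (Prime.dvd_finsetProd_iff (pb_prime i).prime _).1 hd
    exact ⟨j, Or.inr hj⟩

open Classical in
/-- few `n` see the pair `i` -/
theorem card_odd2 (i : ℕ) {k : ℕ} (h : Fin k → ℕ) {H : ℕ} (hH : ∀ j, h j ≤ H) (N : ℕ) :
    (((Icc 1 N).filter (fun n => odd2 i (Q h n))).card : ℝ) ≤ 2 * k * ((N : ℝ) + H) / pa i := by
  have h1 : (Icc 1 N).filter (fun n => odd2 i (Q h n)) ⊆
      (univ : Finset (Fin k)).biUnion (fun j => (Icc 1 N).filter (fun n => pa i ∣ n + h j) ∪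
        (Icc 1 N).filter (fun n => pb i ∣ n + h j)) := by
    intro n hn
    rw [mem_filter] at hn
    obtain ⟨j, hj⟩ := odd2_shift hn.2
    rw [mem_biUnion]
    refine ⟨j, mem_univ _, ?_⟩
    rw [mem_union, mem_filter, mem_filter]
    rcases hj with hj | hj
    · exact Or.inl ⟨hn.1, hj⟩
    · exact Or.inr ⟨hn.1, hj⟩
  have hpa : (0 : ℝ) < pa i := by exact_mod_cast (pa_prime i).pos
  have hpb : (pa i : ℝ) ≤ pb i := by exact_mod_cast (pa_lt_pb i).le
  have h2 : ∀ j : Fin k, (((Icc 1 N).filter (fun n => pa i ∣ n + h j) ∪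
        (Icc 1 N).filter (fun n => pb i ∣ n + h j)).card : ℝ) ≤ 2 * ((N : ℝ) + H) / pa i := by
    intro j
    have e1 : ((((Icc 1 N).filter (fun n => pa i ∣ n + h j)).card : ℕ) : ℝ) ≤
        ((N : ℝ) + H) / pa i := by
      have := card_mult (pa i) (h j) N
      calc ((((Icc 1 N).filter (fun n => pa i ∣ n + h j)).card : ℕ) : ℝ)
          ≤ (((N + h j) / pa i : ℕ) : ℝ) := by exact_mod_cast this
        _ ≤ ((N + h j : ℕ) : ℝ) / pa i := Nat.cast_div_le
        _ ≤ ((N : ℝ) + H) / pa i := by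
            push_cast
            have : (h j : ℝ) ≤ H := by exact_mod_cast hH j
            gcongr
    have e2 : ((((Icc 1 N).filter (fun n => pb i ∣ n + h j)).card : ℕ) : ℝ) ≤
        ((N : ℝ) + H) / pa i := by
      have := card_mult (pb i) (h j) N
      calc ((((Icc 1 N).filter (fun n => pb i ∣ n + h j)).card : ℕ) : ℝ)
          ≤ (((N + h j) / pb i : ℕ) : ℝ) := by exact_mod_cast this
        _ ≤ ((N + h j : ℕ) : ℝ) / pb i := Nat.cast_div_le
        _ ≤ ((N : ℝ) + H) / pa i := by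
            push_cast
            have : (h j : ℝ) ≤ H := by exact_mod_cast hH j
            gcongr
    have e3 := card_union_le ((Icc 1 N).filter (fun n => pa i ∣ n + h j))
      ((Icc 1 N).filter (fun n => pb i ∣ n + h j))
    have e4 : (((Icc 1 N).filter (fun n => pa i ∣ n + h j) ∪
        (Icc 1 N).filter (fun n => pb i ∣ n + h j)).card : ℝ) ≤
        (((Icc 1 N).filter (fun n => pa i ∣ n + h j)).card : ℝ) +
          (((Icc 1 N).filter (fun n => pb i ∣ n + h j)).card : ℝ) := by exact_mod_cast e3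
    calc _ ≤ _ := e4
      _ ≤ ((N : ℝ) + H) / pa i + ((N : ℝ) + H) / pa i := add_le_add e1 e2
      _ = 2 * ((N : ℝ) + H) / pa i := by ring
  calc (((Icc 1 N).filter (fun n => odd2 i (Q h n))).card : ℝ)
      ≤ (((univ : Finset (Fin k)).biUnion (fun j => (Icc 1 N).filter (fun n => pa i ∣ n + h j) ∪
        (Icc 1 N).filter (fun n => pb i ∣ n + h j))).card : ℝ) := by
        exact_mod_cast card_le_card h1
    _ ≤ ∑ j : Fin k, (((Icc 1 N).filter (fun n => pa i ∣ n + h j) ∪
        (Icc 1 N).filter (fun n => pb i ∣ n + h j)).card : ℝ) := by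
        exact_mod_cast card_biUnion_le
    _ ≤ ∑ _j : Fin k, 2 * ((N : ℝ) + H) / pa i := sum_le_sum fun j _ => h2 j
    _ = 2 * k * ((N : ℝ) + H) / pa i := by
        rw [sum_const, card_univ, Fintype.card_fin, nsmul_eq_mul]
        ring

/-- only the signs below `J` matter -/
theorem cor_local {k : ℕ} (h : Fin k → ℕ) {N J : ℕ} (hJ : ∀ i, N + h i < J) (ω ω' : ℕ → ℤˣ)
    (e : ∀ i, i < J → ω i = ω' i) :
    cor (GL.cm (sgn ω)) h N = cor (GL.cm (sgn ω')) h N := by
  unfold cor
  refine sum_congr rfl fun n hn => ?_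
  rw [mem_Icc] at hn
  refine prod_congr rfl fun j _ => ?_
  rw [GL.cm_congr (f := sgn ω) (g := sgn ω')]
  intro p hp
  have hpp := Nat.prime_of_mem_primeFactors hp
  have hle : p ≤ n + h j := Nat.le_of_dvd (by omega) (Nat.dvd_of_mem_primeFactors hp)
  have hlt : p < J := by
    have := hJ j
    omega
  obtain ⟨l, rfl | rfl⟩ := prime_cases hpp
  · rw [sgn_pa, sgn_pa, e l (by have := lt_pa l; omega)]
  · rw [sgn_pb, sgn_pb, e l (by have := lt_pa l; have := pa_lt_pb l; omega)]

/-- the mixed vector: fixed below `I`, `η` above -/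
def mix {J : ℕ} (I : ℕ) (ω : ℕ → ℤˣ) (η : Fin J → ℤˣ) : ℕ → ℤˣ :=
  fun i => if i < I then ω i else exd η i

theorem mix_fl {J I i : ℕ} (hI : I ≤ i) (hi : i < J) (ω : ℕ → ℤˣ) (η : Fin J → ℤˣ) :
    mix I ω (Function.update η ⟨i, hi⟩ (-η ⟨i, hi⟩)) = fl i (mix I ω η) := by
  funext l
  unfold mix fl
  by_cases hl : l = i
  · subst hl
    have hI' : ¬ l < I := by omega
    simp [exd, hi, hI']
  · rw [Function.update_of_ne hl]
    split_ifs with h1
    · rfl
    · unfold exd
      split_ifs with h2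
      · rw [Function.update_of_ne]
        intro h3
        exact hl (congrArg Fin.val h3)
      · rfl

/-- a pair above `I` averages out -/
theorem sum_zero {J I i m : ℕ} (hI : I ≤ i) (hi : i < J) (ω : ℕ → ℤˣ) (ho : odd2 i m) :
    ∑ η : Fin J → ℤˣ, (GL.cm (sgn (mix I ω η)) m : ℝ) = 0 := by
  have hinv : Function.Involutive (fun η : Fin J → ℤˣ =>
      Function.update η ⟨i, hi⟩ (-η ⟨i, hi⟩)) := by
    intro η
    simp
  have h1 := Equiv.sum_comp (Function.Involutive.toPerm _ hinv)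
    (fun η : Fin J → ℤˣ => (GL.cm (sgn (mix I ω η)) m : ℝ))
  have h2 : ∑ η : Fin J → ℤˣ, (GL.cm (sgn (mix I ω ((Function.Involutive.toPerm _ hinv) η))) m : ℝ) =
      ∑ η : Fin J → ℤˣ, -(GL.cm (sgn (mix I ω η)) m : ℝ) := by
    refine sum_congr rfl fun η _ => ?_
    rw [Function.Involutive.coe_toPerm, mix_fl hI hi, cm_fl_odd _ ho]
    push_cast
    rfl
  rw [h2, sum_neg_distrib] at h1
  linarith

open Classical in
/-- **the mean over the large coordinates** -/
theorem mean_le {k : ℕ} (h : Fin k → ℕ) {N J I : ℕ} (hJ : ∀ i, N + h i < J) (ω : ℕ → ℤˣ) :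
    |(∑ η : Fin J → ℤˣ, cor (GL.cm (sgn (fun i => if i < I then ω i else exd η i))) h N) / 2 ^ J| ≤
      (((Icc 1 N).filter (fun n => ∀ i, I ≤ i → ¬ odd2 i (Q h n))).card : ℝ) := by
  have h1 : ∑ η : Fin J → ℤˣ, cor (GL.cm (sgn (fun i => if i < I then ω i else exd η i))) h N =
      ∑ n ∈ Icc 1 N, ∑ η : Fin J → ℤˣ, (GL.cm (sgn (mix I ω η)) (Q h n) : ℝ) := by
    rw [sum_comm]
    refine sum_congr rfl fun η _ => ?_
    rw [cor_eq]
    rfl
  have hc : (Fintype.card (Fin J → ℤˣ) : ℝ) = 2 ^ J := by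
    rw [Fintype.card_fun, Fintype.card_fin]
    norm_num [Fintype.card_units_int]
  rw [h1, abs_div, abs_of_pos (by positivity : (0 : ℝ) < 2 ^ J), div_le_iff₀ (by positivity),
    card_filter]
  push_cast
  rw [sum_mul]
  refine (abs_sum_le_sum_abs _ _).trans (sum_le_sum fun n hn => ?_)
  rw [mem_Icc] at hn
  split_ifs with hz
  · rw [one_mul]
    refine (abs_sum_le_sum_abs _ _).trans ?_
    rw [sum_congr rfl fun η _ => cm_abs (mix I ω η) (Q h n), sum_const, card_univ, nsmul_eq_mul,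
      mul_one, hc]
  · push Not at hz
    obtain ⟨i, hi, ho⟩ := hz
    have hiJ : i < J := by
      obtain ⟨j, hj⟩ := odd2_shift ho
      have hj' := hJ j
      have l1 := lt_pa i
      have l2 := pa_lt_pb i
      rcases hj with hj | hj
      · have := Nat.le_of_dvd (by omega) hj
        omega
      · have := Nat.le_of_dvd (by omega) hj
        omega
    rw [sum_zero hi hiJ ω ho, abs_zero, zero_mul]

end Pool.Agent.Helper51.CW
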